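import Pool.Agent.DPL.StmtsA
import Pool.Agent.Helper60_DPS.STA
import Pool.Agent.Helper60_DPS.STR

/-! DGE: high levels have no small degrees. -/

set_option autoImplicit false

namespace Pool.Agent.DPL.H60

open Finset Polynomial Pool.Agent.DPS Pool.Agent.DPL

theorem dg_eq_ip {n k : ℕ} (f : KS n k → ℝ) (J : Finset (Fin n)) :
    dg f J = ip f (DPS.star k J) := by
  unfold dg ip DPS.star
  refine Finset.sum_congr rfl fun F _ => ?_
  split_ifs <;> simp

theorem E_star {n k l : ℕ} (hl : l ≤ k) (J : Finset (Fin n)) (hJ : J.card < l) :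
    E n k l (DPS.star k J) = 0 := by
  unfold E eb Lagrange.basis
  have hsub : Finset.range (J.card + 1) ⊆ (Finset.range (k + 1)).erase l := by
    intro i hi
    rw [Finset.mem_range] at hi
    rw [Finset.mem_erase, Finset.mem_range]
    omega
  have h1 : ∀ i, Lagrange.basisDivisor (y n l) (y n i) =
      C (-(y n l - y n i)⁻¹) * (C (y n i) - X) := by
    intro i
    unfold Lagrange.basisDivisor
    rw [C_neg]
    ring
  have h2 : ∏ i ∈ Finset.range (J.card + 1), Lagrange.basisDivisor (y n l) (y n i) =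
      (∏ i ∈ Finset.range (J.card + 1), C (-(y n l - y n i)⁻¹)) *
        ∏ i ∈ Finset.range (J.card + 1), (C (y n i) - X) := by
    rw [← Finset.prod_mul_distrib]
    exact Finset.prod_congr rfl fun i _ => h1 i
  rw [← Finset.prod_sdiff hsub, h2, map_mul, map_mul]
  change (aeval (Y n k)) _ ((aeval (Y n k)) _ ((aeval (Y n k)) _ (DPS.star k J))) = 0
  have h3 := Pool.Agent.DPS.H60.sta Pool.Agent.DPS.H60.str n k J.card J rfl
  rw [h3, map_zero, map_zero]

theorem dge (ide : IDEStmt) : DGEStmt := by
  intro n k l h2k hl f J hJ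
  rw [dg_eq_ip, (ide n k h2k).2.2.2 l f (DPS.star k J), E_star hl J hJ]
  unfold ip
  exact Finset.sum_eq_zero fun F _ => by rw [Pi.zero_apply, mul_zero]

end Pool.Agent.DPL.H60
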