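import Pool.Agent.DPL.StmtsA
import Pool.Agent.Helper81_DPS.WIM
import Pool.Agent.Helper33_DPS.Pos
import Pool.Agent.Helper39_DPL.KRA

/-! ODD: all odd levels. -/

set_option autoImplicit false

namespace Pool.Agent.DPL.H60

open Finset Polynomial Pool.Agent.DPS Pool.Agent.DPL

theorem odd (oda : ODAStmt) (odb : ODBStmt) : ODDStmt := by
  intro n k t j l hl htj hjk htk hodd hn
  have hl' := Finset.mem_Icc.1 hl
  have ht : 1 ≤ t := hl'.1.trans hl'.2
  have h2k : 2 * k ≤ n := by
    obtain ⟨a, ha⟩ : ∃ a, k = t + a := ⟨k - t, by omega⟩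
    have e : k - t + 1 = a + 1 := by omega
    rw [e] at hn
    subst ha
    nlinarith [Nat.le_of_lt htj]
  have hccnn : ∀ j l, 0 ≤ cc n k t j l := fun j l => H33.cc_nonneg n k t j l
  have hth : ∀ j, 0 ≤ th n k t j := fun j => Finset.sum_nonneg fun l _ => hccnn j l
  have hcs : 0 ≤ cs n k t := by
    have : 0 ≤ ∑ l ∈ Finset.Icc 1 t, cc n k t 0 l := Finset.sum_nonneg fun l _ => hccnn 0 l
    unfold cs
    linarith
  rcases Nat.lt_or_ge (t + 1) j with h1 | h1
  swap
  · have e : j = t + 1 := by omega
    rw [e]
    exact oda n k t l hl htk hn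
  have h3 : t + 3 ≤ j := by
    rcases hodd with ⟨m, hm⟩
    omega
  rcases Nat.lt_or_ge 1 t with h2 | h2
  · have hmono : ∀ m, t + 3 + m ≤ k → cc n k t (t + 3 + m) l ≤ cc n k t (t + 3) l := by
      intro m
      induction m with
      | zero => intro _; exact le_refl _
      | succ m ih =>
        intro hm
        exact (H81.wim n k t (t + 3 + m) l ht (by omega) (by omega) hn hl).trans (ih (by omega))
    have h4 := hmono (j - (t + 3)) (by omega)
    have e : t + 3 + (j - (t + 3)) = j := by omega
    rw [e] at h4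
    have h5 := odb n k t l h2 hl (by omega) hn
    calc cc n k t j l * cs n k t ≤ cc n k t (t + 3) l * cs n k t :=
          mul_le_mul_of_nonneg_right h4 hcs
      _ ≤ 2 * cc n k t 0 l := h5
      _ ≤ 2 * cc n k t 0 l * (1 + th n k t j) := by
          have h6 := mul_nonneg (hccnn 0 l) (hth j)
          nlinarith
  · have ht1 : t = 1 := by omega
    subst ht1
    have hl1 : l = 1 := by omega
    subst hl1
    have e1 : th n k 1 j = cc n k 1 j 1 := by
      unfold th
      rw [Finset.Icc_self, Finset.sum_singleton]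
    have e2 : cs n k 1 = 1 + cc n k 1 0 1 := by
      unfold cs
      rw [Finset.Icc_self, Finset.sum_singleton]
    have e3 : cc n k 1 0 1 = |kap n k 0 / kap n k 1| := by
      unfold cc
      rw [Finset.Icc_self, Finset.erase_singleton, Finset.prod_empty, mul_one]
    have h4 := H39.kra n k 1 (by omega) h2k
    rw [Nat.descFactorial_one, Nat.descFactorial_one] at h4
    have h5 : 1 ≤ cc n k 1 0 1 := by
      rw [e3]
      have hkn : (k : ℝ) ≤ ((n - k : ℕ) : ℝ) := by
        have : k ≤ n - k := by omega
        exact_mod_cast this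
      have hk0 : (0 : ℝ) < k := by
        have : 0 < k := by omega
        exact_mod_cast this
      have h6 : |kap n k 1 / kap n k 0| ≤ 1 := by
        by_contra hcon
        push Not at hcon
        have h7 : (k : ℝ) < |kap n k 1 / kap n k 0| * ((n - k : ℕ) : ℝ) := by
          calc (k : ℝ) ≤ 1 * ((n - k : ℕ) : ℝ) := by rw [one_mul]; exact hkn
            _ < _ := mul_lt_mul_of_pos_right hcon (lt_of_lt_of_le hk0 hkn)
        linarith
      have h8 : 0 < |kap n k 1 / kap n k 0| := by
        refine lt_of_le_of_ne (abs_nonneg _) fun hz => ?_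
        rw [← hz, zero_mul] at h4
        linarith
      have h9 : |kap n k 0 / kap n k 1| = |kap n k 1 / kap n k 0|⁻¹ := by
        rw [← abs_inv, inv_div]
      rw [h9]
      exact (one_le_inv₀ h8).2 h6
    rw [e1, e2]
    have h6 := hccnn j 1
    nlinarith

end Pool.Agent.DPL.H60
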